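import Pool.Agent.H44.TB.Clo
import Pool.Agent.H44.TB.Cnt

/-!
# `n` balls in 3-space whose line transversal space has a cubic number of connected components

Write a non-horizontal line as `x = p + α z`, `y = q + β z`, with `α = e A`, `β = e B`,
`p = e² P`, `q = e² Q`, `e` tiny. It meets the ball with centre `c` and radius `R` iff
`|v|² (|(p, q, 0) - c|² - R²) ≤ (((p, q, 0) - c) · v)²`, `v = (α, β, 1)`.

* The balls with centre `2 (1, 0, -2 j e)` through the origin give `P ≥ -(A - 2 j)²` up to a
  factor close to `1`, those with centre `2 (0, 1, -2 k e)` give `Q ≥ -(B - 2 k)²`.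
* Small balls with centre `-μ (1 - r, r, 0)` give `(1 - r) P + r Q ≤ -r (1 - r)` up to a small
  error.
* Large balls with centre `Λ (1, 1, -w e)` through the origin forbid `A + B = w`.

The rest is as in `CubicLowerBound` (helper34): `n² (n - 1)` isolated pieces from about `5 n`
balls.
-/

set_option autoImplicit false

namespace Pool.Agent.Results.MP_ce02af_co.CubicBalls

open Pool.Agent.H44.TB

/-- For every `n ≥ 10` there are `n` distinct closed balls in `ℝ³` whose space of line transversals has at
least `n³ / 1000` connected components; in particular the maximal number `C(n)` of the problem is at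
least `n³ / 1000` for all `s ≥ 1`, `D ≥ 2`. -/
theorem result (n : ℕ) (hn : 10 ≤ n) :
    (∃ (c : Fin n → E3) (R : Fin n → ℝ), (∀ i, 0 < R i) ∧
      Function.Injective (fun i => Metric.closedBall (c i) (R i)) ∧
      (n : ℕ∞) ^ 3 ≤ 1000 * ENat.card (ConnectedComponents
        (transversalSpace fun i => Metric.closedBall (c i) (R i)))) ∧
    ∀ s D : ℕ, 1 ≤ s → 2 ≤ D → (n : ℕ∞) ^ 3 ≤ 1000 * maxComponents s D n := by
  have h : Balls n := balls_of (fun h1 h2 => components_ge h1 h2) hn
  exact ⟨h, fun s D hs hD => cubic_of_balls hs hD h⟩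

end Pool.Agent.Results.MP_ce02af_co.CubicBalls
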