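import Pool.Agent.H44.TT.Clo
import Pool.Agent.H44.TT.Cnt

/-!
# `n` translates of one convex body whose line transversal space has a cubic number of components

Write a line as `x = p + α z`, `y = q + β z`. With `a ≈ n`, `M ≈ a⁴`, `L ≈ M² a²` let
`K = {x ≥ z² / 4, y ≥ z² / 4, x + y ≥ L + z² / (4 M), |(x, y) - (2 L, 2 L)| + 3 a |z| ≤ 6 L}`.

* Suitable translates of `K` lie in `{x ≥ 2 j z + z² / 4}` and give `p ≥ -(α - 2 j)²`; others lie
  in `{y ≥ 2 k z + z² / 4}` and give `q ≥ -(β - 2 k)²`.
* Translates touching the origin side of the double cone give `(1 - r) p + r q ≤ -r (1 - r)`.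
* Translates in `{x + y ≥ w z + z² / (4 M)}` forbid `α + β = w` and little more.

A point of `K` on each sample line is found in the part of `K` where the other conditions are far
from being sharp. The rest is as in `CubicLowerBound` (helper34).
-/

set_option autoImplicit false

namespace Pool.Agent.Results.MP_ce02af_co.CubicTranslates

open Pool.Agent.H44.TB Pool.Agent.H44.TT

/-- For every `n ≥ 10` there is a compact convex set `K ⊆ ℝ³` with interior points, a Boolean
combination of `7` sets `{p = 0}` or `{p > 0}` with `p` of degree at most `2`, and `n` distinct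
translates of `K` whose space of line transversals has at least `n³ / 1000` connected
components. -/
theorem result (n : ℕ) (hn : 10 ≤ n) :
    ∃ (K : Set E3) (t : Fin n → E3), IsCompact K ∧ Convex ℝ K ∧ (interior K).Nonempty ∧
      HasComplexity 7 2 K ∧ Function.Injective (fun i => {x : E3 | x - t i ∈ K}) ∧
      (n : ℕ∞) ^ 3 ≤ 1000 * ENat.card (ConnectedComponents
        (transversalSpace fun i => {x : E3 | x - t i ∈ K})) :=
  translates_of (fun h1 h2 h3 => Pool.Agent.H44.TT.components_ge h1 h2 h3) hn

end Pool.Agent.Results.MP_ce02af_co.CubicTranslates
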