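import Pool.Agent.H44.TE.Clo
import Pool.Agent.H44.TE.Cnt

/-!
# Pairwise disjoint ellipsoids whose line transversal space has a cubic number of components

Write a line as `x = R p + α z`, `y = q + β z`, `α = G (j + 1) + σ`, `β = G (k + 1) + τ`, `σ`, `τ` tiny, and
`P = p + σ`, `Q = q + τ`.

* `A_j`: a thin ellipsoid (at scale `R`), touching the line with `P = σ = 0` near `z = R`, with long
  axis crossing `z = 0` at `x ≈ R Y_j`. It is met iff `σ² + 4 P (K + λ Y σ) - 4 Y λ P² ≥ 0` up to a
  small error, `λ = (K - Y) / Y²`; so `P ≥ -σ² / (4 K)` up to a small error. `B_k`: the same at scale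
  `1`, `Q ≥ -τ² / (4 K)`.
* `F_l`: a thin, nearly horizontal ellipsoid, `(1/2 - ρ) p + (1/2 + ρ) q ≤ 4 K ρ²`.
* `H_m`: a very large thin ellipsoid, forbids `σ + τ = -δ`.

The numbers `Y_j`, `C_m` grow exponentially, which makes the ellipsoids pairwise disjoint. The rest
is as in `CubicLowerBound` (helper34).
-/

set_option autoImplicit false

namespace Pool.Agent.Results.MP_ce02af_co.DisjointEllipsoids

open Pool.Agent.H44.TB

/-- For every `n ≥ 10` there are `n` pairwise disjoint solid ellipsoids in `ℝ³` whose space of line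
transversals has at least `n³ / 1000` connected components. -/
theorem result (n : ℕ) (hn : 10 ≤ n) :
    ∃ (T : Fin n → (E3 ≃ₗ[ℝ] E3)) (c : Fin n → E3),
      (∀ i j, i ≠ j → Disjoint {x : E3 | ‖T i (x - c i)‖ ≤ 1} {x : E3 | ‖T j (x - c j)‖ ≤ 1}) ∧
      (n : ℕ∞) ^ 3 ≤ 1000 * ENat.card (ConnectedComponents
        (transversalSpace fun i => {x : E3 | ‖T i (x - c i)‖ ≤ 1})) := by
  obtain ⟨F, hF, hd, hc⟩ := Pool.Agent.H44.TE.disjoint_of
    (fun h1 h2 _ => Pool.Agent.H44.TE.components_ge h1 h2) hn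
  choose T c hTc using hF
  have e : F = fun i => {x : E3 | ‖T i (x - c i)‖ ≤ 1} := funext fun i => hTc i
  subst e
  exact ⟨T, c, hd, hc⟩

end Pool.Agent.Results.MP_ce02af_co.DisjointEllipsoids
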