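import Pool.Agent.H34.UB.Fin

/-!
# Unit balls in 3-space whose line transversal space has quadratically many components

Write a line as `x = p + α z`, `y = q + β z`, with `α = e A`, `β = e B`, `p = e² P`, `q = e² Q`,
`e` small, and put `v = (α, β, 1)`. If it meets the ball with centre `c` and radius `1`, then
`-2 (p, q, 0) · c + |c|² - 1 ≤ (c · v)²`.

* The unit balls through the origin with centres in the directions `(1, 0, -2 i e)` give
  `-2 P ≤ (A - 2 i)²`, those with `(0, 1, -2 i e)` give `-2 Q ≤ (B - 2 i)²`.
* The unit balls with centres in the directions `-(1, 1, -2 l e)`, `|c|² = 1 + (6 / 5) e²`, give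
  `2 s (P + Q) + 6 / 5 ≤ s² (A + B - 2 l)²`, `s² ≈ 1 / 2`.

So `6 / 5 ≤ s² d(A + B)² + s (d(A)² + d(B)²)`, `d` the distance to the even numbers. This holds at
`A`, `B` odd and fails on the boundary of the square of side `1` around such a point: `n²`
isolated pieces from `4 n + 2` balls.
-/

set_option autoImplicit false

namespace Pool.Agent.Results.MP_ce02af_co.UnitBalls

open Pool.Agent.H44.TB

/-- For every `n ≥ 6` there are `n` distinct closed balls of radius `1` in `ℝ³` whose space of line
transversals has at least `(n - 5)² / 16` connected components. -/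
theorem result (n : ℕ) (hn : 6 ≤ n) :
    ∃ c : Fin n → E3, Function.Injective c ∧
      (((n - 5) ^ 2 : ℕ) : ℕ∞) ≤ 16 * ENat.card (ConnectedComponents
        (transversalSpace fun i => Metric.closedBall (c i) 1)) :=
  Pool.Agent.H34.UB.unit_balls hn

end Pool.Agent.Results.MP_ce02af_co.UnitBalls
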